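import Pool.Agent.Q161.ESB.Stm2

/-!
# Project ESB, job LCUB: the number of the functions without zeros, `M` blocks
-/

set_option autoImplicit false

namespace Pool.Agent.Q164.ESB

open Finset Pool.Agent.Q161.ESB Pool.Agent.Q161.ESM

theorem lcub (h : Pool.Agent.Q161.ESM.S_LCU) : S_LCUB := by
  intro M V _ _ _
  refine ⟨(Fintype.card (V × Fin M) : ℝ) ^ 2, fun k _ _ l hl F hF S hS z => ?_⟩
  rcases Nat.eq_zero_or_pos M with h0 | h0
  · subst h0
    have hS0 : S = ∅ := by
      ext x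
      exact x.2.elim0
    have h1 : ({c : V × Fin 0 → k | EqB l F c ∧ (∀ x, x ∉ S → c x = z x) ∧ ∀ x ∈ S, c x ≠ 0}.ncard : ℕ) ≤ 1 := by
      refine (Set.ncard_le_one (Set.toFinite _)).2 fun a _ b _ => ?_
      funext x
      exact x.2.elim0
    have h2 : (0 : ℝ) ≤ (Fintype.card (V × Fin 0) : ℝ) ^ 2 / (l : ℝ) ^ 2 := by positivity
    have h3 : (({c : V × Fin 0 → k | EqB l F c ∧ (∀ x, x ∉ S → c x = z x) ∧ ∀ x ∈ S, c x ≠ 0}.ncard : ℕ) : ℝ) ≤ 1 := by
      exact_mod_cast h1
    refine h3.trans ?_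
    rw [hS0]
    simp
  · haveI : NeZero M := ⟨h0.ne'⟩
    have hF' : Function.Bijective (fun x : V × Fin M => (F x.1, x.2)) := by
      constructor
      · rintro ⟨s, m⟩ ⟨s', m'⟩ he
        have h1 : F s = F s' := congrArg Prod.fst he
        have h2 : m = m' := congrArg Prod.snd he
        rw [hF.1 h1, h2]
      · rintro ⟨s, m⟩
        obtain ⟨s', hs'⟩ := hF.2 s
        exact ⟨(s', m), by simp only [hs']⟩
    have h1 := h k (V × Fin M) l hl (fun x : V × Fin M => (F x.1, x.2)) hF' S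
      (fun x => hS x.1 x.2) z
    have e1 : {c : V × Fin M → k | EqF l (fun x : V × Fin M => (F x.1, x.2)) c ∧ (∀ s, s ∉ S → c s = z s) ∧
        ∀ s ∈ S, c s ≠ 0} = {c : V × Fin M → k | EqB l F c ∧ (∀ x, x ∉ S → c x = z x) ∧ ∀ x ∈ S, c x ≠ 0} := by
      ext c
      simp only [Set.mem_setOf_eq]
      refine and_congr_left fun _ => ⟨fun g s m => g (s, m), fun g x => g x.1 x.2⟩
    have e2 : S.filter (fun x : V × Fin M => (F x.1, x.2) = x) = S.filter (fun x => F x.1 = x.1) := by
      refine Finset.filter_congr fun x _ => ?_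
      constructor
      · intro g
        exact congrArg Prod.fst g
      · intro g
        exact Prod.ext g rfl
    rw [e1, e2] at h1
    exact h1

end Pool.Agent.Q164.ESB
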